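import Pool.Agent.Lib.MP_a7bda3_al.Kos

namespace Pool.Agent.MP_a7bda3_al

universe u

namespace Fam

variable {R : Type u} [CommRing R] {p : ℕ}

/-- `r` kills the cohomology of `W / V`. -/
def SubKill (D : Fam R p) (V W : Submodule R D.M) (n : ℕ) (r : R) : Prop :=
  ∀ (i : ℤ) (w : D.M), w ∈ W → w ∈ D.G i → D.d n w ∈ V →
    ∃ w' ∈ W, w' ∈ D.G (i - 1) ∧ r • w - D.d n w' ∈ V

theorem subKill_self (D : Fam R p) (V W : Submodule R D.M) (n : ℕ) (x : R) :
    SubKill (kstep x D) (V.prod V) (W.prod W) n (x ^ n) := by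
  rintro i ⟨u, v⟩ ⟨huW, hvW⟩ ⟨hu, hv⟩ ⟨hd1, hd2⟩
  refine ⟨(v, 0), ⟨hvW, zero_mem _⟩, ⟨hv, zero_mem _⟩, ?_⟩
  rw [kstep_d]
  refine ⟨?_, ?_⟩
  · exact hd2
  · change x ^ n • v - (x ^ n • v - D.d n 0) ∈ V
    rw [map_zero, sub_zero, sub_self]
    exact zero_mem _

theorem SubKill.kstep {D : Fam R p} {V W : Submodule R D.M} {n : ℕ} {r : R}
    (h : SubKill D V W n r) (x : R) :
    SubKill (kstep x D) (V.prod V) (W.prod W) n (r * r) := by
  rintro i ⟨u, v⟩ ⟨huW, hvW⟩ ⟨hu, hv⟩ ⟨hd1, hd2⟩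
  change D.d n u ∈ V at hd1
  change x ^ n • u - D.d n v ∈ V at hd2
  change u ∈ W at huW
  change v ∈ W at hvW
  obtain ⟨u', hu'W, hu', hdu'⟩ := h i u huW hu hd1
  have hdv : D.d n (r • v - x ^ n • u') =
      x ^ n • (r • u - D.d n u') - r • (x ^ n • u - D.d n v) := by
    rw [map_sub, map_smul, map_smul, smul_sub, smul_sub, smul_comm (x ^ n) r u]
    abel
  obtain ⟨v', hv'W, hv', hdv'⟩ := h (i - 1) (r • v - x ^ n • u')
    (sub_mem (W.smul_mem _ hvW) (W.smul_mem _ hu'W))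
    (sub_mem (Submodule.smul_mem _ _ hv) (Submodule.smul_mem _ _ hu'))
    (by
      rw [hdv]
      exact sub_mem (V.smul_mem _ hdu') (V.smul_mem _ hd2))
  refine ⟨(r • u', -v'), ⟨W.smul_mem _ hu'W, W.neg_mem hv'W⟩,
    ⟨Submodule.smul_mem _ _ hu', Submodule.neg_mem _ hv'⟩, ?_⟩
  refine ⟨?_, ?_⟩
  · change (r * r) • u - D.d n (r • u') ∈ V
    have : (r * r) • u - D.d n (r • u') = r • (r • u - D.d n u') := by
      rw [map_smul, smul_sub, smul_smul]
    rw [this]
    exact V.smul_mem _ hdu'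
  · change (r * r) • v - (x ^ n • r • u' - D.d n (-v')) ∈ V
    have : (r * r) • v - (x ^ n • r • u' - D.d n (-v')) =
        r • (r • v - x ^ n • u') - D.d n v' := by
      rw [map_neg, smul_sub, smul_smul r r v, smul_comm (x ^ n) r u']
      abel
    rw [this]
    exact hdv'

/-- The ideal of elements that kill the cohomology of `W / V`. -/
def killIdeal (D : Fam R p) (V W : Submodule R D.M) (n : ℕ) : Ideal R where
  carrier := {r | SubKill D V W n r}
  zero_mem' := by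
    intro i w _ _ _
    exact ⟨0, zero_mem _, zero_mem _, by simp⟩
  add_mem' := by
    intro r s hr hs i w hw hG hd
    obtain ⟨a, ha, ha', ha''⟩ := hr i w hw hG hd
    obtain ⟨b, hb, hb', hb''⟩ := hs i w hw hG hd
    refine ⟨a + b, add_mem ha hb, add_mem ha' hb', ?_⟩
    have : (r + s) • w - D.d n (a + b) = (r • w - D.d n a) + (s • w - D.d n b) := by
      rw [map_add, add_smul]
      abel
    rw [this]
    exact add_mem ha'' hb''
  smul_mem' := by
    intro r s hs i w hw hG hd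
    obtain ⟨b, hb, hb', hb''⟩ := hs i w hw hG hd
    refine ⟨r • b, W.smul_mem _ hb, Submodule.smul_mem _ _ hb', ?_⟩
    rw [map_smul, smul_eq_mul, mul_smul, ← smul_sub]
    exact V.smul_mem _ hb''

/-- The submodule `W ^ (2 ^ m)` of the iterated Koszul family. -/
def kosSub (D : Fam R p) (W : Submodule R D.M) : (xs : List R) → Submodule R (kos xs D).M
  | [] => W
  | _ :: xs => (kosSub D W xs).prod (kosSub D W xs)

theorem exists_pow_mem_killIdeal (D : Fam R p) (V W : Submodule R D.M) (n : ℕ) (xs : List R) :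
    ∀ x ∈ xs, ∃ k, x ^ k ∈ killIdeal (kos xs D) (kosSub D V xs) (kosSub D W xs) n := by
  induction xs with
  | nil => simp
  | cons a xs ih =>
    intro x hx
    rcases List.mem_cons.1 hx with rfl | hx
    · exact ⟨n, subKill_self (kos xs D) (kosSub D V xs) (kosSub D W xs) n x⟩
    · obtain ⟨k, hk⟩ := ih x hx
      refine ⟨k + k, ?_⟩
      rw [pow_add]
      exact SubKill.kstep hk a

/-- `W` is stable under the differentials. -/
def Stable (D : Fam R p) (W : Submodule R D.M) : Prop := ∀ n, ∀ w ∈ W, D.d n w ∈ W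

theorem Stable.kos {D : Fam R p} {W : Submodule R D.M} (h : D.Stable W) (xs : List R) :
    (kos xs D).Stable (kosSub D W xs) := by
  induction xs with
  | nil => exact h
  | cons x xs ih =>
    rintro n ⟨u, v⟩ ⟨hu, hv⟩
    exact ⟨ih n u hu, sub_mem (Submodule.smul_mem _ _ hu) (ih n v hv)⟩

/-- `y` acts bijectively on `W / V`. -/
def Bij (D : Fam R p) (V W : Submodule R D.M) (y : R) : Prop :=
  (∀ (i : ℤ), ∀ w ∈ W, w ∈ D.G i → ∃ w' ∈ W, w' ∈ D.G i ∧ y • w' - w ∈ V) ∧
    ∀ w ∈ W, y • w ∈ V → w ∈ V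

theorem Bij.kos {D : Fam R p} {V W : Submodule R D.M} {y : R} (h : D.Bij V W y) (xs : List R) :
    (kos xs D).Bij (kosSub D V xs) (kosSub D W xs) y := by
  induction xs with
  | nil => exact h
  | cons x xs ih =>
    constructor
    · rintro i ⟨u, v⟩ ⟨hu, hv⟩ ⟨hu', hv'⟩
      obtain ⟨a, ha, ha', ha''⟩ := ih.1 i u hu hu'
      obtain ⟨b, hb, hb', hb''⟩ := ih.1 (i - 1) v hv hv'
      exact ⟨(a, b), ⟨ha, hb⟩, ⟨ha', hb'⟩, ⟨ha'', hb''⟩⟩
    · rintro ⟨u, v⟩ ⟨hu, hv⟩ he
      exact ⟨ih.2 u hu he.1, ih.2 v hv he.2⟩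

theorem Bij.pow {D : Fam R p} {V W : Submodule R D.M} {y : R} (h : D.Bij V W y) (k : ℕ) :
    D.Bij V W (y ^ k) := by
  induction k with
  | zero => exact ⟨fun i w hw hG => ⟨w, hw, hG, by simp⟩, fun w _ hy => by simpa using hy⟩
  | succ k ih =>
    constructor
    · intro i w hw hG
      obtain ⟨a, ha, ha', ha''⟩ := ih.1 i w hw hG
      obtain ⟨b, hb, hb', hb''⟩ := h.1 i a ha ha'
      refine ⟨b, hb, hb', ?_⟩
      have : y ^ (k + 1) • b - w = y ^ k • (y • b - a) + (y ^ k • a - w) := by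
        rw [pow_succ, mul_smul, smul_sub]
        abel
      rw [this]
      exact add_mem (V.smul_mem _ hb'') ha''
    · intro w hw hy
      rw [pow_succ', mul_smul] at hy
      exact ih.2 w hw (h.2 _ (W.smul_mem _ hw) hy)

/-- `W / V` is acyclic. -/
def Acyc (D : Fam R p) (V W : Submodule R D.M) : Prop :=
  ∀ (n : ℕ) (i : ℤ) (w : D.M), w ∈ W → w ∈ D.G i → D.d n w ∈ V →
    ∃ w' ∈ W, w' ∈ D.G (i - 1) ∧ w - D.d n w' ∈ V

theorem acyc_kos {D : Fam R p} {V W : Submodule R D.M} {y : R} (hb : D.Bij V W y)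
    (hsV : D.Stable V) (hsW : D.Stable W) (xs : List R)
    (hy : y ∈ (Ideal.span {x | x ∈ xs}).radical) :
    (kos xs D).Acyc (kosSub D V xs) (kosSub D W xs) := by
  intro n i w hw hG hd
  have h1 : Ideal.span {x | x ∈ xs} ≤
      (killIdeal (kos xs D) (kosSub D V xs) (kosSub D W xs) n).radical := by
    rw [Ideal.span_le]
    intro x hx
    exact exists_pow_mem_killIdeal D V W n xs x hx
  have h2 : y ∈ (killIdeal (kos xs D) (kosSub D V xs) (kosSub D W xs) n).radical :=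
    Ideal.radical_le_radical_iff.2 h1 hy
  obtain ⟨k, hk⟩ := h2
  have hbk := (hb.kos xs).pow k
  obtain ⟨a, ha, ha', ha''⟩ := hbk.1 i w hw hG
  have hda : (kos xs D).d n a ∈ kosSub D V xs := by
    apply hbk.2 _ (hsW.kos xs n a ha)
    have h3 : y ^ k • (kos xs D).d n a =
        (kos xs D).d n (y ^ k • a - w) + (kos xs D).d n w := by
      rw [map_sub, map_smul]
      abel
    rw [h3]
    exact add_mem (hsV.kos xs n _ ha'') hd
  obtain ⟨b, hb1, hb2, hb3⟩ := hk i a ha ha' hda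
  refine ⟨b, hb1, hb2, ?_⟩
  have h4 : w - (kos xs D).d n b = (y ^ k • a - (kos xs D).d n b) - (y ^ k • a - w) := by abel
  rw [h4]
  exact sub_mem hb3 ha''

theorem Acyc.trans {D : Fam R p} {U V W : Submodule R D.M} (hUV : U ≤ V) (hVW : V ≤ W)
    (h1 : D.Acyc U V) (h2 : D.Acyc V W) : D.Acyc U W := by
  intro n i w hw hG hd
  obtain ⟨a, ha, ha', ha''⟩ := h2 n i w hw hG (hUV hd)
  have hda : D.d n a ∈ D.G i := by
    have := D.d_mem n _ a ha'
    rwa [sub_add_cancel] at this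
  obtain ⟨b, hb, hb', hb''⟩ := h1 n i (w - D.d n a) ha'' (sub_mem hG hda)
    (by rw [map_sub, D.d_d, sub_zero]; exact hd)
  refine ⟨a + b, add_mem ha (hVW hb), add_mem ha' hb', ?_⟩
  rw [map_add, ← sub_sub]
  exact hb''

theorem kosSub_mono (D : Fam R p) {V W : Submodule R D.M} (h : V ≤ W) (xs : List R) :
    kosSub D V xs ≤ kosSub D W xs := by
  induction xs with
  | nil => exact h
  | cons x xs ih => exact Submodule.prod_mono ih ih

theorem kosSub_bot (D : Fam R p) (xs : List R) : kosSub D ⊥ xs = ⊥ := by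
  induction xs with
  | nil => rfl
  | cons x xs ih =>
    change (kosSub D ⊥ xs).prod (kosSub D ⊥ xs) = ⊥
    rw [ih]
    exact Submodule.prod_bot

/-- A surjective morphism of families. -/
structure Hom (D D' : Fam R p) where
  f : D.M →ₗ[R] D'.M
  mem : ∀ (i : ℤ) (m : D.M), m ∈ D.G i → f m ∈ D'.G i
  surj : ∀ (i : ℤ) (m' : D'.M), m' ∈ D'.G i → ∃ m ∈ D.G i, f m = m'
  comm_d : ∀ (n : ℕ) (m : D.M), f (D.d n m) = D'.d n (f m)
  comm_F : ∀ (m : D.M), f (D.F m) = D'.F (f m)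

/-- Functoriality of the Koszul step. -/
def Hom.kstep {D D' : Fam R p} (φ : Hom D D') (x : R) : Hom (kstep x D) (kstep x D') where
  f := φ.f.prodMap φ.f
  mem := by
    rintro i ⟨u, v⟩ ⟨hu, hv⟩
    exact ⟨φ.mem i u hu, φ.mem _ v hv⟩
  surj := by
    rintro i ⟨u, v⟩ ⟨hu, hv⟩
    obtain ⟨a, ha, rfl⟩ := φ.surj i u hu
    obtain ⟨b, hb, rfl⟩ := φ.surj _ v hv
    exact ⟨(a, b), ⟨ha, hb⟩, rfl⟩
  comm_d := by
    rintro n ⟨u, v⟩
    ext
    · simp [φ.comm_d]
    · simp [φ.comm_d]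
  comm_F := by
    rintro ⟨u, v⟩
    ext
    · simp [φ.comm_F]
    · simp [φ.comm_F]

/-- Functoriality of the iterated Koszul construction. -/
def Hom.kos {D D' : Fam R p} (φ : Hom D D') : (xs : List R) → Hom (kos xs D) (kos xs D')
  | [] => φ
  | x :: xs => (Hom.kos φ xs).kstep x

theorem Hom.ker_kos {D D' : Fam R p} (φ : Hom D D') (xs : List R) :
    LinearMap.ker (φ.kos xs).f = kosSub D (LinearMap.ker φ.f) xs := by
  induction xs with
  | nil => rfl
  | cons x xs ih =>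
    change LinearMap.ker ((φ.kos xs).f.prodMap (φ.kos xs).f) = _
    rw [LinearMap.ker_prodMap, ih]
    rfl

theorem Hom.comm_F_iter {D D' : Fam R p} (φ : Hom D D') (e : ℕ) (m : D.M) :
    φ.f (D.F^[e] m) = D'.F^[e] (φ.f m) := by
  induction e generalizing m with
  | zero => rfl
  | succ e ih => rw [Function.iterate_succ_apply, Function.iterate_succ_apply, ih, φ.comm_F]

theorem Hom.lift_Z {D D' : Fam R p} (φ : Hom D D') (h : D.Acyc ⊥ (LinearMap.ker φ.f))
    {n : ℕ} {i : ℤ} {z' : D'.M} (hz' : z' ∈ D'.Z n i) : ∃ z ∈ D.Z n i, φ.f z = z' := by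
  obtain ⟨m, hm, rfl⟩ := φ.surj i z' hz'.1
  have h0 : φ.f (D.d n m) = 0 := by
    rw [φ.comm_d]
    exact hz'.2
  obtain ⟨w, hw, hwG, hdw⟩ := h n (i + 1) (D.d n m) h0 (D.d_mem n i m hm) (D.d_d n m)
  rw [add_sub_cancel_right] at hwG
  rw [Submodule.mem_bot, sub_eq_zero] at hdw
  refine ⟨m - w, ⟨sub_mem hm hwG, ?_⟩, ?_⟩
  · change D.d n (m - w) = 0
    rw [map_sub, ← hdw, sub_self]
  · rw [map_sub, (show φ.f w = 0 from hw), sub_zero]

theorem Hom.lift_B {D D' : Fam R p} (φ : Hom D D') (h : D.Acyc ⊥ (LinearMap.ker φ.f))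
    {n : ℕ} {i : ℤ} {z : D.M} (hz : z ∈ D.Z n i) (hB : φ.f z ∈ D'.B n i) : z ∈ D.B n i := by
  obtain ⟨s', hs', hds'⟩ := hB
  obtain ⟨s, hs, rfl⟩ := φ.surj _ s' hs'
  rw [← φ.comm_d] at hds'
  have hB' : D.d n s ∈ D.B n i := ⟨s, hs, rfl⟩
  have hZ : z - D.d n s ∈ D.Z n i := sub_mem hz (D.B_le_Z n i hB')
  have h0 : φ.f (z - D.d n s) = 0 := by rw [map_sub, hds', sub_self]
  obtain ⟨w, hw, hwG, hdw⟩ := h n i _ h0 hZ.1 hZ.2
  rw [Submodule.mem_bot, sub_eq_zero] at hdw
  have : z = D.d n w + D.d n s := by rw [← hdw]; abel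
  rw [this]
  exact add_mem ⟨w, hwG, rfl⟩ hB'

theorem Hom.len_le {D D' : Fam R p} (φ : Hom D D') (h : D.Acyc ⊥ (LinearMap.ker φ.f))
    (n : ℕ) (i : ℤ) : D'.len n i ≤ D.len n i := by
  have hZ : ∀ (n : ℕ) (z : D.M), z ∈ D.Z n i → φ.f z ∈ D'.Z n i := by
    rintro n z ⟨hz, hdz⟩
    refine ⟨φ.mem i z hz, ?_⟩
    change D'.d n (φ.f z) = 0
    rw [← φ.comm_d, (show D.d n z = 0 from hdz), map_zero]
  have hB : ∀ (n : ℕ) (z : D.M), z ∈ D.B n i → φ.f z ∈ D'.B n i := by
    rintro n _ ⟨w, hw, rfl⟩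
    exact ⟨φ.f w, φ.mem _ w hw, (φ.comm_d n w).symm⟩
  refine rlen_le_of_surj φ.f _ _ _ _ ?_ ?_ ?_
  · rintro z ⟨hz, e, he⟩
    refine ⟨hZ n z hz, e, ?_⟩
    rw [← φ.comm_F_iter]
    exact hB _ _ he
  · rintro z _ hz
    exact hB n z hz
  · rintro z' ⟨hz', e, he⟩
    obtain ⟨z, hz, rfl⟩ := φ.lift_Z h hz'
    refine ⟨z, ⟨hz, e, ?_⟩, ?_⟩
    · refine φ.lift_B h (D.F_iter_mem_Z e n i z hz) ?_
      rwa [φ.comm_F_iter]
    · rw [sub_self]
      exact zero_mem _

section

variable [Fact p.Prime] [CharP R p] {s : ℕ}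

/-- `R_{y_∅}` is `R`. -/
noncomputable def evEquiv (y : Fin s → R) : R ≃ₐ[R] Loc y ∅ :=
  IsLocalization.atUnit R (Loc y ∅) (∏ i ∈ (∅ : Finset (Fin s)), y i) (by simp)

/-- The projection of the Cech complex onto its part in degree `0`. -/
noncomputable def cechHom (y : Fin s → R) : Hom (cech p y) (base R p) where
  f := (evEquiv y).symm.toLinearMap ∘ₗ LinearMap.proj (φ := fun S => Loc y S) ∅
  mem := by
    intro i m hm
    by_cases hi : i = 0
    · change _ ∈ (if i = 0 then (⊤ : Submodule R R) else ⊥)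
      simp [hi]
    · change (evEquiv y).symm (m ∅) ∈ (if i = 0 then (⊤ : Submodule R R) else ⊥)
      have h0 : m ∅ = 0 := hm ∅ (by simpa using Ne.symm hi)
      rw [h0, map_zero]
      exact zero_mem _
  surj := by
    intro i r hr
    change r ∈ (if i = 0 then (⊤ : Submodule R R) else ⊥) at hr
    refine ⟨Pi.single ∅ (evEquiv y r), ?_, ?_⟩
    · intro S hS
      rcases eq_or_ne S ∅ with rfl | hS'
      · rw [if_neg (by simpa using Ne.symm hS), Submodule.mem_bot] at hr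
        rw [hr, map_zero, Pi.single_zero]
        rfl
      · rw [Pi.single_eq_of_ne hS']
    · change (evEquiv y).symm ((Pi.single ∅ (evEquiv y r) : Cochain y) ∅) = r
      rw [Pi.single_eq_same, AlgEquiv.symm_apply_apply]
  comm_d := by
    intro n m
    change (evEquiv y).symm (diff y m ∅) = 0
    have h0 : diff y m ∅ = 0 := by simp [diff]
    rw [h0, map_zero]
  comm_F := by
    intro m
    change (evEquiv y).symm (m ∅ ^ p) = ((evEquiv y).symm (m ∅)) ^ p
    rw [map_pow]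

/-- Cochains that vanish on all `S` whose elements are at least `t`. -/
def filt (y : Fin s → R) (t : ℕ) : Submodule R (Cochain y) where
  carrier := {c | ∀ S : Finset (Fin s), (∀ i ∈ S, t ≤ i.val) → c S = 0}
  zero_mem' _ _ := rfl
  add_mem' ha hb S hS := by rw [Cochain.add_apply, ha S hS, hb S hS, add_zero]
  smul_mem' r _ ha S hS := by rw [Cochain.smul_apply, ha S hS, smul_zero]

omit [Fact p.Prime] [CharP R p] in
theorem filt_zero (y : Fin s → R) : filt y 0 = ⊥ := by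
  rw [eq_bot_iff]
  intro c hc
  rw [Submodule.mem_bot]
  funext S
  exact hc S fun i _ => Nat.zero_le _

theorem ker_cechHom (y : Fin s → R) : LinearMap.ker (cechHom (p := p) y).f = filt y s := by
  ext c
  constructor
  · intro hc S hS
    have hS' : S = ∅ := by
      rw [Finset.eq_empty_iff_forall_notMem]
      intro i hi
      exact absurd (hS i hi) (not_le.2 i.2)
    subst hS'
    have h1 : (evEquiv y).symm (c ∅) = 0 := hc
    simpa using h1
  · intro hc
    change (evEquiv y).symm (c ∅) = 0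
    rw [hc ∅ (by simp), map_zero]

theorem filt_stable (y : Fin s → R) (t : ℕ) : (cech p y).Stable (filt y t) := by
  intro n c hc S hS
  refine Finset.sum_eq_zero fun i _ => ?_
  rw [hc (S.erase i) fun j hj => hS j (Finset.mem_of_mem_erase hj), map_zero, smul_zero]

omit [Fact p.Prime] [CharP R p] in
theorem isUnit_y (y : Fin s → R) {S : Finset (Fin s)} {i : Fin s} (hi : i ∈ S) :
    IsUnit (algebraMap R (Loc y S) (y i)) :=
  isUnit_of_dvd_unit (map_dvd _ (Finset.dvd_prod_of_mem y hi))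
    (IsLocalization.Away.algebraMap_isUnit (∏ i ∈ S, y i))

theorem filt_bij (y : Fin s → R) (i : Fin s) :
    (cech p y).Bij (filt y i.val) (filt y (i.val + 1)) (y i) := by
  classical
  have key : ∀ S : Finset (Fin s), (∀ j ∈ S, i.val ≤ j.val) → i ∉ S →
      ∀ j ∈ S, i.val + 1 ≤ j.val := by
    intro S hS hi j hj
    have h1 := hS j hj
    have h2 : j ≠ i := fun h => hi (h ▸ hj)
    have h3 : j.val ≠ i.val := fun h => h2 (Fin.ext h)
    omega
  constructor
  · intro n w hw hG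
    refine ⟨fun S => if h : i ∈ S then ((isUnit_y y h).unit⁻¹ : (Loc y S)ˣ) * w S else 0,
      ?_, ?_, ?_⟩
    · intro S hS
      exact dif_neg fun h => by simpa using hS i h
    · intro S hS
      by_cases h : i ∈ S
      · refine (dif_pos h).trans ?_
        rw [hG S hS, mul_zero]
      · exact dif_neg h
    · intro S hS
      by_cases h : i ∈ S
      · change y i • (if h : i ∈ S then ((isUnit_y y h).unit⁻¹ : (Loc y S)ˣ) * w S else 0) -
          w S = 0
        rw [dif_pos h, Algebra.smul_def, ← mul_assoc]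
        have h1 : algebraMap R (Loc y S) (y i) * ((isUnit_y y h).unit⁻¹ : (Loc y S)ˣ) = 1 :=
          (isUnit_y y h).mul_val_inv
        rw [h1, one_mul, sub_self]
      · change y i • (if h : i ∈ S then ((isUnit_y y h).unit⁻¹ : (Loc y S)ˣ) * w S else 0) -
          w S = 0
        rw [dif_neg h, hw S (key S hS h), smul_zero, sub_zero]
  · intro w hw hy S hS
    by_cases h : i ∈ S
    · have h1 : y i • w S = 0 := hy S hS
      rw [Algebra.smul_def] at h1
      exact (isUnit_y y h).mul_right_eq_zero.1 h1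
    · exact hw S (key S hS h)

omit [Fact p.Prime] [CharP R p] in
theorem filt_mono (y : Fin s → R) {t t' : ℕ} (h : t ≤ t') : filt y t ≤ filt y t' :=
  fun _ hc S hS => hc S fun i hi => h.trans (hS i hi)

theorem acyc_filt (y : Fin s → R) (xs : List R)
    (hy : ∀ i, y i ∈ (Ideal.span {x | x ∈ xs}).radical) (t : ℕ) (ht : t ≤ s) :
    (kos xs (cech p y)).Acyc ⊥ (kosSub (cech p y) (filt y t) xs) := by
  induction t with
  | zero =>
    rw [filt_zero]
    intro n i w hw hG hd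
    have hw' : w ∈ (⊥ : Submodule R (kos xs (cech p y)).M) := by
      rw [← kosSub_bot (cech p y) xs]
      exact hw
    refine ⟨0, zero_mem _, zero_mem _, ?_⟩
    rwa [map_zero, sub_zero]
  | succ t ih =>
    refine Acyc.trans bot_le (kosSub_mono (cech p y) (filt_mono y (Nat.le_succ t)) xs)
      (ih (by omega)) ?_
    exact acyc_kos (filt_bij y ⟨t, ht⟩) (filt_stable y t) (filt_stable y (t + 1)) xs
      (hy ⟨t, ht⟩)

theorem len_kos_base_le (xs : List R) (y : Fin s → R)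
    (hy : ∀ i, y i ∈ (Ideal.span {x | x ∈ xs}).radical) (n : ℕ) (i : ℤ) :
    (kos xs (base R p)).len n i ≤ (kos xs (cech p y)).len n i := by
  refine Hom.len_le ((cechHom y).kos xs) ?_ n i
  rw [Hom.ker_kos, ker_cechHom]
  exact acyc_filt y xs hy s le_rfl

end

end Fam

end Pool.Agent.MP_a7bda3_al
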