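import Mathlib

/-!
Definitions for MP_a7bda3_al: the Cech complex of a sequence `y` with its Frobenius, local
cohomology, the part of local cohomology that is nilpotent under Frobenius, and the Frobenius
closure of an ideal.
-/

namespace Pool.Agent.MP_a7bda3_al

universe u

section Cech

variable {R : Type u} [CommRing R] {s : ℕ}

/-- `R_{y_S}`: the localization of `R` at the product of the `y i` with `i ∈ S`. -/
abbrev Loc (y : Fin s → R) (S : Finset (Fin s)) : Type u := Localization.Away (∏ i ∈ S, y i)

theorem isUnit_of_subset (y : Fin s → R) {T S : Finset (Fin s)} (h : T ⊆ S)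
    (a : Submonoid.powers (∏ i ∈ T, y i)) :
    IsUnit (Algebra.ofId R (Loc y S) (a : R)) := by
  obtain ⟨_, n, rfl⟩ := a
  have h1 : IsUnit (algebraMap R (Loc y S) (∏ i ∈ S, y i)) :=
    IsLocalization.Away.algebraMap_isUnit _
  have h2 : IsUnit (algebraMap R (Loc y S) (∏ i ∈ T, y i)) :=
    isUnit_of_dvd_unit (map_dvd _ (Finset.prod_dvd_prod_of_subset _ _ _ h)) h1
  simpa [Algebra.ofId_apply] using h2.pow n

/-- The localization map `R_{y_T} → R_{y_S}` for `T ⊆ S`. -/
noncomputable def res (y : Fin s → R) {T S : Finset (Fin s)} (h : T ⊆ S) :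
    Loc y T →ₐ[R] Loc y S :=
  IsLocalization.liftAlgHom (M := Submonoid.powers (∏ i ∈ T, y i))
    (f := Algebra.ofId R (Loc y S)) (isUnit_of_subset y h)

/-- The direct sum of all `R_{y_S}`: the Cech cochains of all degrees. -/
def Cochain (y : Fin s → R) : Type u := (S : Finset (Fin s)) → Loc y S

noncomputable instance (y : Fin s → R) : AddCommGroup (Cochain y) := Pi.addCommGroup

noncomputable instance (y : Fin s → R) : Module R (Cochain y) := Pi.module _ _ _

theorem Cochain.add_apply (y : Fin s → R) (a b : Cochain y) (S : Finset (Fin s)) :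
    (a + b) S = a S + b S := rfl

theorem Cochain.smul_apply (y : Fin s → R) (r : R) (a : Cochain y) (S : Finset (Fin s)) :
    (r • a) S = r • a S := rfl

/-- The Cech cochains of degree `n`: those with `c S = 0` unless `S` has `n` elements. -/
def deg (y : Fin s → R) (n : ℤ) : Submodule R (Cochain y) where
  carrier := {c | ∀ S : Finset (Fin s), (S.card : ℤ) ≠ n → c S = 0}
  zero_mem' _ _ := rfl
  add_mem' ha hb S hS := by rw [Cochain.add_apply, ha S hS, hb S hS, add_zero]
  smul_mem' r _ ha S hS := by rw [Cochain.smul_apply, ha S hS, smul_zero]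

/-- The sign `(-1) ^ #{j ∈ S | j < i}`. -/
def sgn (R : Type u) [CommRing R] (i : Fin s) (S : Finset (Fin s)) : R :=
  (-1) ^ (S.filter (· < i)).card

/-- The Cech differential `(d c) S = ∑ i ∈ S, ± c (S \ {i})`. -/
noncomputable def diff (y : Fin s → R) : Cochain y →ₗ[R] Cochain y where
  toFun c S := ∑ i ∈ S, sgn R i S • res y (S.erase_subset i) (c (S.erase i))
  map_add' a b := by
    funext S
    simp only [Cochain.add_apply, map_add, smul_add, Finset.sum_add_distrib]
  map_smul' r a := by
    funext S
    simp only [Cochain.smul_apply, map_smul, RingHom.id_apply]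
    refine (Finset.sum_congr rfl fun i _ => smul_comm _ _ _).trans ?_
    exact Finset.smul_sum.symm

/-- The cocycles of degree `n`. -/
noncomputable def cocycles (y : Fin s → R) (n : ℤ) : Submodule R (Cochain y) :=
  deg y n ⊓ LinearMap.ker (diff y)

/-- The coboundaries of degree `n`. -/
noncomputable def coboundaries (y : Fin s → R) (n : ℤ) : Submodule R (Cochain y) :=
  (deg y (n - 1)).map (diff y)

/-- The cohomology of the Cech complex in degree `n`. When the ideal generated by `y` has radical
the maximal ideal `m` of a Noetherian local ring `R`, it is the local cohomology `H^n_m(R)`. -/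
def H (y : Fin s → R) (n : ℤ) : Type u :=
  cocycles y n ⧸ (coboundaries y n).submoduleOf (cocycles y n)

noncomputable instance (y : Fin s → R) (n : ℤ) : AddCommGroup (H y n) :=
  Submodule.Quotient.addCommGroup _

noncomputable instance (y : Fin s → R) (n : ℤ) : Module R (H y n) :=
  Submodule.Quotient.module _

/-- The class of a cocycle. -/
noncomputable def cls (y : Fin s → R) (n : ℤ) : cocycles y n →ₗ[R] H y n := Submodule.mkQ _

theorem cls_eq_zero {y : Fin s → R} {n : ℤ} {z : cocycles y n} :
    cls y n z = 0 ↔ (z : Cochain y) ∈ coboundaries y n :=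
  Submodule.Quotient.mk_eq_zero _

variable (p : ℕ) [Fact p.Prime] [CharP R p]

theorem add_pow_loc (y : Fin s → R) (S : Finset (Fin s)) (a b : Loc y S) :
    (a + b) ^ p = a ^ p + b ^ p := by
  rw [add_pow_prime_eq Fact.out]
  have : ((p : ℕ) : Loc y S) = 0 := by
    rw [← map_natCast (algebraMap R (Loc y S)) p, CharP.cast_eq_zero, map_zero]
  rw [this, zero_mul, zero_mul, zero_mul, add_zero]

/-- The Frobenius of the Cech complex, `a ↦ a ^ p` on each `R_{y_S}`. -/
noncomputable def frob (y : Fin s → R) : Cochain y →ₛₗ[frobenius R p] Cochain y where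
  toFun c S := c S ^ p
  map_add' a b := by
    funext S
    exact add_pow_loc p y S _ _
  map_smul' r a := by
    funext S
    simp only [Cochain.smul_apply, smul_pow, frobenius_def]

theorem frob_mem_deg (y : Fin s → R) (n : ℤ) (c : Cochain y) (hc : c ∈ deg y n) :
    frob p y c ∈ deg y n := by
  intro S hS
  change c S ^ p = 0
  rw [hc S hS, zero_pow (Fact.out : p.Prime).ne_zero]

omit [Fact p.Prime] [CharP R p] in
theorem res_comp (y : Fin s → R) {T S U : Finset (Fin s)} (h : T ⊆ S) (h' : S ⊆ U)
    (a : Loc y T) : res y h' (res y h a) = res y (h.trans h') a := by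
  have : (res y h').comp (res y h) = res y (h.trans h') :=
    Subsingleton.elim (h := IsLocalization.algHom_subsingleton (Submonoid.powers (∏ i ∈ T, y i))) _ _
  rw [← this]
  rfl

omit [Fact p.Prime] [CharP R p] in
theorem diff_mem_deg (y : Fin s → R) (n : ℤ) (c : Cochain y) (hc : c ∈ deg y n) :
    diff y c ∈ deg y (n + 1) := by
  intro S hS
  refine Finset.sum_eq_zero fun i hi => ?_
  rw [hc (S.erase i), map_zero, smul_zero]
  have := Finset.card_erase_add_one hi
  intro h
  apply hS
  rw [← h, ← this]
  push_cast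
  ring

omit [Fact p.Prime] [CharP R p] in
theorem sgn_mul (S : Finset (Fin s)) {i j : Fin s} (hj : j ∈ S) (h : j < i) :
    sgn R i S * sgn R j (S.erase i) = - (sgn R j S * sgn R i (S.erase j)) := by
  have h1 : (S.erase i).filter (· < j) = S.filter (· < j) := by
    ext k
    simp only [Finset.mem_filter, Finset.mem_erase]
    constructor
    · rintro ⟨⟨-, h1⟩, h2⟩
      exact ⟨h1, h2⟩
    · rintro ⟨h1, h2⟩
      exact ⟨⟨(h2.trans h).ne, h1⟩, h2⟩
  have h2 : (S.erase j).filter (· < i) = (S.filter (· < i)).erase j := by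
    ext k
    simp only [Finset.mem_filter, Finset.mem_erase]
    tauto
  have h3 : ((S.filter (· < i)).erase j).card + 1 = (S.filter (· < i)).card :=
    Finset.card_erase_add_one (Finset.mem_filter.2 ⟨hj, h⟩)
  simp only [sgn]
  rw [h1, h2, ← h3, pow_succ]
  ring

omit [Fact p.Prime] [CharP R p] in
theorem sgn_mul' (S : Finset (Fin s)) {i j : Fin s} (hi : i ∈ S) (hj : j ∈ S) (h : i ≠ j) :
    sgn R i S * sgn R j (S.erase i) + sgn R j S * sgn R i (S.erase j) = 0 := by
  rcases lt_or_gt_of_ne h with h | h
  · rw [sgn_mul S hi h]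
    ring
  · rw [sgn_mul S hj h]
    ring

omit [Fact p.Prime] [CharP R p] in
theorem diff_diff (y : Fin s → R) (c : Cochain y) : diff y (diff y c) = 0 := by
  funext S
  change ∑ i ∈ S, sgn R i S • res y (S.erase_subset i)
    (∑ j ∈ S.erase i, sgn R j (S.erase i) • res y ((S.erase i).erase_subset j)
      (c ((S.erase i).erase j))) = 0
  have h1 : ∀ i ∈ S, sgn R i S • res y (S.erase_subset i)
      (∑ j ∈ S.erase i, sgn R j (S.erase i) • res y ((S.erase i).erase_subset j)
        (c ((S.erase i).erase j))) =
      ∑ j ∈ S.erase i, (sgn R i S * sgn R j (S.erase i)) •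
        res y (((S.erase i).erase_subset j).trans (S.erase_subset i))
          (c ((S.erase i).erase j)) := by
    intro i _
    rw [map_sum, Finset.smul_sum]
    refine Finset.sum_congr rfl fun j _ => ?_
    rw [map_smul, smul_smul, res_comp]
  rw [Finset.sum_congr rfl h1, Finset.sum_sigma']
  refine Finset.sum_involution (fun x _ => ⟨x.2, x.1⟩) ?_ ?_ ?_ ?_
  · rintro ⟨i, j⟩ hij
    simp only [Finset.mem_sigma, Finset.mem_erase] at hij
    obtain ⟨hi, hji, hj⟩ := hij
    have h2 : ∀ (T T' : Finset (Fin s)) (hT : T ⊆ S) (hT' : T' ⊆ S), T = T' →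
        res y hT (c T) = res y hT' (c T') := by
      rintro T T' hT hT' rfl
      rfl
    change (sgn R i S * sgn R j (S.erase i)) • _ + (sgn R j S * sgn R i (S.erase j)) •
      res y (((S.erase j).erase_subset i).trans (S.erase_subset j))
          (c ((S.erase j).erase i)) = 0
    rw [h2 ((S.erase j).erase i) ((S.erase i).erase j) _
      (((S.erase i).erase_subset j).trans (S.erase_subset i)) Finset.erase_right_comm,
      ← add_smul, sgn_mul' S hi hj (Ne.symm hji), zero_smul]
  · rintro ⟨i, j⟩ hij _ heq
    simp only [Finset.mem_sigma, Finset.mem_erase] at hij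
    simp only [Sigma.mk.injEq, heq_eq_eq] at heq
    exact hij.2.1 heq.1
  · rintro ⟨i, j⟩ hij
    simp only [Finset.mem_sigma, Finset.mem_erase] at hij ⊢
    exact ⟨hij.2.2, Ne.symm hij.2.1, hij.1⟩
  · rintro ⟨i, j⟩ hij
    rfl

theorem frob_diff (y : Fin s → R) (c : Cochain y) : frob p y (diff y c) = diff y (frob p y c) := by
  funext S
  let P : Loc y S →+ Loc y S :=
    { toFun := fun a => a ^ p
      map_zero' := zero_pow (Fact.out : p.Prime).ne_zero
      map_add' := add_pow_loc p y S }
  change P (∑ i ∈ S, sgn R i S • res y (S.erase_subset i) (c (S.erase i))) =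
    ∑ i ∈ S, sgn R i S • res y (S.erase_subset i) (c (S.erase i) ^ p)
  rw [map_sum]
  refine Finset.sum_congr rfl fun i _ => ?_
  have h1 : frobenius R p (sgn R i S) = sgn R i S := by
    rw [sgn, map_pow, map_neg, map_one]
  rw [frobenius_def] at h1
  change (sgn R i S • res y (S.erase_subset i) (c (S.erase i))) ^ p = _
  rw [smul_pow, h1, map_pow]

theorem frob_mem_cocycles (y : Fin s → R) (n : ℤ) (c : Cochain y) (hc : c ∈ cocycles y n) :
    frob p y c ∈ cocycles y n := by
  refine ⟨frob_mem_deg p y n c hc.1, ?_⟩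
  have h : diff y c = 0 := hc.2
  change diff y (frob p y c) = 0
  rw [← frob_diff, h, map_zero]

theorem frob_mem_coboundaries (y : Fin s → R) (n : ℤ) (c : Cochain y)
    (hc : c ∈ coboundaries y n) : frob p y c ∈ coboundaries y n := by
  obtain ⟨w, hw, rfl⟩ := hc
  exact ⟨frob p y w, frob_mem_deg p y _ w hw, (frob_diff p y w).symm⟩

/-- The Frobenius on cocycles. -/
noncomputable def frobZ (y : Fin s → R) (n : ℤ) :
    cocycles y n →ₛₗ[frobenius R p] cocycles y n :=
  ((frob p y).domRestrict (cocycles y n)).codRestrict (cocycles y n)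
    fun z => frob_mem_cocycles p y n z z.2

/-- The Frobenius action on cohomology: the class of a cocycle `z` goes to the class of
`frob z`. -/
noncomputable def frobH (y : Fin s → R) (n : ℤ) : H y n →ₛₗ[frobenius R p] H y n :=
  Submodule.mapQ _ _ (frobZ p y n) fun z hz => frob_mem_coboundaries p y n z.1 hz

theorem frobH_iterate_smul (y : Fin s → R) (n : ℤ) (e : ℕ) (r : R) (h : H y n) :
    (frobH p y n)^[e] (r • h) = r ^ p ^ e • (frobH p y n)^[e] h := by
  induction e generalizing r h with
  | zero => simp
  | succ e ih => rw [Function.iterate_succ_apply, Function.iterate_succ_apply, map_smulₛₗ, ih,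
      frobenius_def, ← pow_mul, ← pow_succ']

/-- `0^F` in the cohomology module: the classes `h` with `F ^ e h = 0` for some `e`. -/
def nilpotentPart (y : Fin s → R) (n : ℤ) : Submodule R (H y n) where
  carrier := {h | ∃ e : ℕ, (frobH p y n)^[e] h = 0}
  zero_mem' := ⟨0, rfl⟩
  add_mem' := by
    rintro a b ⟨e, he⟩ ⟨e', he'⟩
    refine ⟨e + e', ?_⟩
    have h1 : (frobH p y n)^[e + e'] a = 0 := by
      rw [add_comm, Function.iterate_add_apply, he, iterate_map_zero]
    have h2 : (frobH p y n)^[e + e'] b = 0 := by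
      rw [Function.iterate_add_apply, he', iterate_map_zero]
    rw [iterate_map_add, h1, h2, add_zero]
  smul_mem' := by
    rintro r a ⟨e, he⟩
    exact ⟨e, by rw [frobH_iterate_smul, he, smul_zero]⟩

end Cech

/-- The Frobenius closure `I^F` of an ideal: the elements `x` with `x ^ (p ^ e) ∈ I^[p ^ e]` for
some `e`, where `I^[p ^ e]` is the ideal generated by the `p ^ e`-th powers of the elements
of `I`. -/
def frobeniusClosure {R : Type u} [CommRing R] (p : ℕ) [Fact p.Prime] [CharP R p]
    (I : Ideal R) : Ideal R where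
  carrier := {x | ∃ e : ℕ, x ^ p ^ e ∈ Ideal.span ((fun a : R => a ^ p ^ e) '' (I : Set R))}
  zero_mem' := ⟨0, by simp⟩
  add_mem' := by
    have key : ∀ (x : R) (e e' : ℕ),
        x ^ p ^ e ∈ Ideal.span ((fun a : R => a ^ p ^ e) '' (I : Set R)) →
        x ^ p ^ (e + e') ∈ Ideal.span ((fun a : R => a ^ p ^ (e + e')) '' (I : Set R)) := by
      intro x e e' hx
      have h := Ideal.mem_map_of_mem (iterateFrobenius R p e') hx
      rw [iterateFrobenius_def, ← pow_mul, ← pow_add, Ideal.map_span, ← Set.image_comp] at h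
      have hf : (iterateFrobenius R p e' ∘ fun a : R => a ^ p ^ e) =
          fun a : R => a ^ p ^ (e + e') := by
        funext a
        simp [iterateFrobenius_def, ← pow_mul, ← pow_add]
      rwa [hf] at h
    rintro x y ⟨e, he⟩ ⟨e', he'⟩
    refine ⟨e + e', ?_⟩
    rw [add_pow_char_pow]
    refine add_mem (key x e e' he) ?_
    have := key y e' e he'
    rwa [add_comm e' e] at this
  smul_mem' := by
    rintro r x ⟨e, he⟩
    refine ⟨e, ?_⟩
    rw [smul_eq_mul, mul_pow]
    exact Ideal.mul_mem_left _ _ he

end Pool.Agent.MP_a7bda3_al
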