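import Pool.Agent.Lib.MP_a7bda3_al.Compare

namespace Pool.Agent.MP_a7bda3_al

universe u

namespace Fam

variable {R : Type u} [CommRing R] {p : ℕ}

/-- The top component of the Koszul family of the ring. -/
noncomputable def top (p : ℕ) [Fact p.Prime] [CharP R p] :
    (xs : List R) → R →ₗ[R] (kos xs (base R p)).M
  | [] => LinearMap.id
  | _ :: xs => LinearMap.inr R _ _ ∘ₗ top p xs

/-- Projection to the top component. -/
noncomputable def tau (p : ℕ) [Fact p.Prime] [CharP R p] :
    (xs : List R) → (kos xs (base R p)).M →ₗ[R] R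
  | [] => LinearMap.id
  | _ :: xs => tau p xs ∘ₗ LinearMap.snd R _ _

variable [Fact p.Prime] [CharP R p]

theorem top_cons (x : R) (xs : List R) (r : R) :
    top p (x :: xs) r = ((0, top p xs r) : (kos xs (base R p)).M × (kos xs (base R p)).M) := rfl

theorem tau_cons (x : R) (xs : List R) (u v : (kos xs (base R p)).M) :
    tau p (x :: xs) ((u, v) : (kos xs (base R p)).M × (kos xs (base R p)).M) = tau p xs v := rfl

theorem tau_top (xs : List R) (r : R) : tau p xs (top p xs r) = r := by
  induction xs with
  | nil => rfl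
  | cons x xs ih => exact ih

theorem top_mem_G (xs : List R) (r : R) : top p xs r ∈ (kos xs (base R p)).G xs.length := by
  induction xs with
  | nil =>
    change r ∈ (if (0 : ℤ) = 0 then (⊤ : Submodule R R) else ⊥)
    simp
  | cons x xs ih =>
    refine ⟨zero_mem _, ?_⟩
    rw [List.length_cons]
    have : (((xs.length + 1 : ℕ) : ℤ) - 1) = xs.length := by push_cast; ring
    rw [this]
    exact ih

theorem d_top (n : ℕ) (xs : List R) (r : R) : (kos xs (base R p)).d n (top p xs r) = 0 := by
  induction xs with
  | nil => rfl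
  | cons x xs ih =>
    rw [top_cons]
    change (kstep x _).d n _ = 0
    rw [kstep_d, ih]
    simp only [map_zero, smul_zero, sub_zero]
    rfl

theorem F_top (xs : List R) (r : R) :
    (kos xs (base R p)).F (top p xs r) = top p xs (r ^ p) := by
  induction xs with
  | nil => rfl
  | cons x xs ih =>
    rw [top_cons, top_cons]
    change (kstep x _).F _ = _
    rw [kstep_F, ih, map_zero]

theorem F_iter_top (xs : List R) (e : ℕ) (r : R) :
    (kos xs (base R p)).F^[e] (top p xs r) = top p xs (r ^ p ^ e) := by
  induction e generalizing r with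
  | zero => simp
  | succ e ih => rw [Function.iterate_succ_apply, F_top, ih, ← pow_mul, ← pow_succ']

theorem tau_d (n : ℕ) (xs : List R) (u : (kos xs (base R p)).M) :
    tau p xs ((kos xs (base R p)).d n u) ∈ Ideal.span ((fun x : R => x ^ n) '' {x | x ∈ xs}) := by
  induction xs with
  | nil =>
    change (0 : R) ∈ _
    exact zero_mem _
  | cons x xs ih =>
    obtain ⟨u, v⟩ := u
    have h : (kos (x :: xs) (base R p)).d n (u, v) =
      (kstep x (kos xs (base R p))).d n (u, v) := rfl
    rw [h, kstep_d, tau_cons, map_sub, map_smul]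
    refine sub_mem ?_ ?_
    · rw [smul_eq_mul]
      exact Ideal.mul_mem_right _ _ (Ideal.subset_span ⟨x, List.mem_cons_self, rfl⟩)
    · refine Ideal.span_mono ?_ (ih v)
      exact Set.image_mono fun z hz => List.mem_cons_of_mem _ hz

theorem top_mem_B (n : ℕ) (xs : List R) (r : R)
    (hr : r ∈ Ideal.span ((fun x : R => x ^ n) '' {x | x ∈ xs})) :
    top p xs r ∈ (kos xs (base R p)).B n xs.length := by
  induction xs generalizing r with
  | nil =>
    have : r = 0 := by simpa using hr
    rw [this, map_zero]
    exact zero_mem _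
  | cons x xs ih =>
    have hset : (fun x : R => x ^ n) '' {z | z ∈ x :: xs} =
        insert (x ^ n) ((fun x : R => x ^ n) '' {z | z ∈ xs}) := by
      have h0 : {z | z ∈ x :: xs} = insert x {z | z ∈ xs} := by
        ext z
        simp
      rw [h0, Set.image_insert_eq]
    rw [hset, Ideal.mem_span_insert] at hr
    obtain ⟨a, b, hb, rfl⟩ := hr
    obtain ⟨s, hs, hds⟩ := ih b hb
    have hlen : (((x :: xs).length : ℕ) : ℤ) - 1 = xs.length := by
      rw [List.length_cons]
      push_cast
      ring
    refine ⟨(top p xs a, -s), ⟨?_, ?_⟩, ?_⟩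
    · rw [hlen]
      exact top_mem_G xs a
    · rw [hlen]
      exact Submodule.neg_mem _ hs
    · change (kstep x (kos xs (base R p))).d n (top p xs a, -s) = _
      rw [kstep_d, d_top, map_neg, hds, top_cons, map_add, sub_neg_eq_add, ← map_smul,
        smul_eq_mul, mul_comm]

theorem length_frobeniusClosure_le (xs : List R) :
    rlen (Ideal.span {x | x ∈ xs}) (frobeniusClosure p (Ideal.span {x | x ∈ xs})) ≤
      (kos xs (base R p)).len 1 xs.length := by
  refine rlen_le_of_inj (top p xs) _ _ _ _ ?_ ?_ ?_
  · rintro r ⟨e, he⟩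
    refine ⟨⟨top_mem_G xs r, d_top 1 xs r⟩, e, ?_⟩
    rw [F_iter_top, one_mul]
    apply top_mem_B
    refine (Ideal.span_le.2 ?_) he
    rintro _ ⟨a, ha, rfl⟩
    change a ^ p ^ e ∈ Ideal.span ((fun x : R => x ^ p ^ e) '' {x | x ∈ xs})
    have h : iterateFrobenius R p e a ∈
        (Ideal.span {x | x ∈ xs}).map (iterateFrobenius R p e) := Ideal.mem_map_of_mem _ ha
    rw [Ideal.map_span] at h
    exact h
  · rintro r _ hr
    apply top_mem_B
    simpa using hr
  · rintro r _ ⟨w, hw, hdw⟩
    have h := tau_d (p := p) 1 xs w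
    rw [hdw, tau_top] at h
    simpa using h

theorem len_cech_le {s : ℕ} (y : Fin s → R) (i : ℤ) :
    (cech p y).len 1 i ≤ Module.length R (nilpotentPart p y i) := by
  have hmem : ∀ z : (cech p y).N 1 i, cls y i ⟨z.1, z.2.1⟩ ∈ nilpotentPart p y i := by
    rintro ⟨z, hz, e, he⟩
    refine ⟨e, ?_⟩
    have key : ∀ (e : ℕ) (z : cocycles y i), (frobH p y i)^[e] (cls y i z) =
        cls y i ((frobZ p y i)^[e] z) := by
      intro e
      induction e with
      | zero => intro z; rfl
      | succ e ih =>
        intro z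
        rw [Function.iterate_succ_apply, Function.iterate_succ_apply, ← ih]
        rfl
    have key2 : ∀ (e : ℕ) (z : cocycles y i),
        (((frobZ p y i)^[e] z : cocycles y i) : Cochain y) = (cech p y).F^[e] z := by
      intro e
      induction e with
      | zero => intro z; rfl
      | succ e ih =>
        intro z
        rw [Function.iterate_succ_apply, Function.iterate_succ_apply, ih]
        rfl
    rw [key, cls_eq_zero, key2]
    exact he
  let g : (cech p y).N 1 i →ₗ[R] nilpotentPart p y i :=
    { toFun := fun z => ⟨cls y i ⟨z.1, z.2.1⟩, hmem z⟩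
      map_add' := fun a b => rfl
      map_smul' := fun r a => rfl }
  refine Module.length_le_of_injective
    (Submodule.liftQ (((cech p y).B 1 i).submoduleOf ((cech p y).N 1 i)) g ?_) ?_
  · intro z hz
    have hz' : z.1 ∈ coboundaries y i := hz
    rw [LinearMap.mem_ker]
    ext
    change cls y i ⟨z.1, z.2.1⟩ = 0
    rw [cls_eq_zero]
    exact hz'
  · rw [injective_iff_map_eq_zero]
    intro a ha
    obtain ⟨z, rfl⟩ := Submodule.Quotient.mk_surjective _ a
    rw [Submodule.Quotient.mk_eq_zero]
    have h1 : cls y i ⟨z.1, z.2.1⟩ = 0 := congrArg Subtype.val ha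
    rw [cls_eq_zero] at h1
    exact h1

end Fam

open Fam

/-- General form: `R` is any commutative ring of characteristic `p`. -/
theorem general {R : Type u} [CommRing R] (p : ℕ) [Fact p.Prime] [CharP R p] {s : ℕ}
    (y : Fin s → R) (xs : List R) (hy : ∀ i, y i ∈ (Ideal.span {x | x ∈ xs}).radical)
    (hk : ∀ x ∈ xs, ∃ k : ℕ, ∀ i : ℤ, i < xs.length → ∀ z ∈ cocycles y i,
      x ^ k • z ∈ coboundaries y i) :
    rlen (Ideal.span {x | x ∈ xs}) (frobeniusClosure p (Ideal.span {x | x ∈ xs})) ≤
      ∑ i ∈ Finset.range (xs.length + 1), (xs.length.choose i : ℕ∞) *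
        Module.length R (nilpotentPart p y i) := by
  have hp : 1 < p := (Fact.out : p.Prime).one_lt
  refine (length_frobeniusClosure_le xs).trans ((len_kos_base_le xs y hy 1 _).trans ?_)
  refine (len_kos hp (I := xs.length) xs ?_ one_pos le_rfl).trans ?_
  · intro x hx
    obtain ⟨k, hk⟩ := hk x hx
    exact ⟨k, fun n i hi z hz => hk i hi z hz⟩
  · rw [← Finset.sum_range_reflect]
    refine Finset.sum_le_sum fun i hi => ?_
    rw [Finset.mem_range] at hi
    rw [show xs.length + 1 - 1 - i = xs.length - i by omega,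
      Nat.choose_symm (by omega : i ≤ xs.length)]
    refine mul_le_mul_right ?_ _
    have : ((xs.length : ℤ) - ((xs.length - i : ℕ) : ℤ)) = i := by
      rw [Nat.cast_sub (by omega)]
      ring
    rw [this]
    exact len_cech_le _ _

end Pool.Agent.MP_a7bda3_al
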