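import Pool.Agent.Lib.MP_a7bda3_al.Defs

namespace Pool.Agent.MP_a7bda3_al

universe u

section RLen

variable {R : Type*} [CommRing R]
variable {M M₁ M₂ : Type*} [AddCommGroup M] [Module R M] [AddCommGroup M₁] [Module R M₁]
  [AddCommGroup M₂] [Module R M₂]

/-- Length of `N / (B ∩ N)`. -/
noncomputable def rlen (B N : Submodule R M) : ℕ∞ := Module.length R (N ⧸ B.submoduleOf N)

/-- Induced map on relative quotients. -/
def rmap (f : M →ₗ[R] M₁) (B N : Submodule R M) (B₁ N₁ : Submodule R M₁)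
    (hN : ∀ z ∈ N, f z ∈ N₁) (hB : ∀ z ∈ N, z ∈ B → f z ∈ B₁) :
    (N ⧸ B.submoduleOf N) →ₗ[R] (N₁ ⧸ B₁.submoduleOf N₁) :=
  Submodule.mapQ _ _ (f.restrict hN) (fun z hz => hB z.1 z.2 hz)

theorem rmap_mk (f : M →ₗ[R] M₁) (B N : Submodule R M) (B₁ N₁ : Submodule R M₁)
    (hN : ∀ z ∈ N, f z ∈ N₁) (hB : ∀ z ∈ N, z ∈ B → f z ∈ B₁) (z : N) :
    rmap f B N B₁ N₁ hN hB (Submodule.Quotient.mk z) =
      Submodule.Quotient.mk (⟨f z, hN z.1 z.2⟩ : N₁) := rfl

theorem rlen_le_of_inj (f : M →ₗ[R] M₁) (B N : Submodule R M) (B₁ N₁ : Submodule R M₁)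
    (hN : ∀ z ∈ N, f z ∈ N₁) (hB : ∀ z ∈ N, z ∈ B → f z ∈ B₁)
    (hi : ∀ z ∈ N, f z ∈ B₁ → z ∈ B) : rlen B N ≤ rlen B₁ N₁ := by
  refine Module.length_le_of_injective (rmap f B N B₁ N₁ hN hB) ?_
  rw [injective_iff_map_eq_zero]
  intro a ha
  obtain ⟨z, rfl⟩ := Submodule.Quotient.mk_surjective _ a
  rw [rmap_mk, Submodule.Quotient.mk_eq_zero] at ha
  rw [Submodule.Quotient.mk_eq_zero]
  exact hi z.1 z.2 ha

theorem rlen_le_of_surj (f : M →ₗ[R] M₁) (B N : Submodule R M) (B₁ N₁ : Submodule R M₁)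
    (hN : ∀ z ∈ N, f z ∈ N₁) (hB : ∀ z ∈ N, z ∈ B → f z ∈ B₁)
    (hs : ∀ z' ∈ N₁, ∃ z ∈ N, f z - z' ∈ B₁) : rlen B₁ N₁ ≤ rlen B N := by
  refine Module.length_le_of_surjective (rmap f B N B₁ N₁ hN hB) ?_
  intro a
  obtain ⟨z', rfl⟩ := Submodule.Quotient.mk_surjective _ a
  obtain ⟨z, hz, hzz⟩ := hs z'.1 z'.2
  refine ⟨Submodule.Quotient.mk ⟨z, hz⟩, ?_⟩
  rw [rmap_mk, Submodule.Quotient.eq]
  exact hzz

theorem rlen_le_add (g : M₁ →ₗ[R] M) (f : M →ₗ[R] M₂)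
    (B₁ N₁ : Submodule R M₁) (B N : Submodule R M) (B₂ N₂ : Submodule R M₂)
    (hgN : ∀ z ∈ N₁, g z ∈ N) (hgB : ∀ z ∈ N₁, z ∈ B₁ → g z ∈ B)
    (hN : ∀ z ∈ N, f z ∈ N₂) (hB : ∀ z ∈ N, z ∈ B → f z ∈ B₂)
    (hex : ∀ z ∈ N, f z ∈ B₂ → ∃ z₁ ∈ N₁, z - g z₁ ∈ B) :
    rlen B N ≤ rlen B₁ N₁ + rlen B₂ N₂ := by
  set φ := rmap f B N B₂ N₂ hN hB with hφ
  set γ := rmap g B₁ N₁ B N hgN hgB with hγ
  have h1 : Module.length R (N ⧸ B.submoduleOf N) =
      Module.length R (LinearMap.ker φ) + Module.length R (LinearMap.range φ) :=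
    Module.length_eq_add_of_exact (LinearMap.ker φ).subtype φ.rangeRestrict
      (Submodule.subtype_injective _) φ.surjective_rangeRestrict (by
        rw [LinearMap.exact_iff]
        simp)
  have h2 : Module.length R (LinearMap.range φ) ≤ rlen B₂ N₂ :=
    Module.length_le_of_injective (LinearMap.range φ).subtype (Submodule.subtype_injective _)
  have h3 : LinearMap.ker φ ≤ LinearMap.range γ := by
    intro a ha
    obtain ⟨z, rfl⟩ := Submodule.Quotient.mk_surjective _ a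
    rw [LinearMap.mem_ker, hφ, rmap_mk, Submodule.Quotient.mk_eq_zero] at ha
    obtain ⟨z₁, hz₁, hzz⟩ := hex z.1 z.2 ha
    refine ⟨Submodule.Quotient.mk ⟨z₁, hz₁⟩, ?_⟩
    rw [hγ, rmap_mk, eq_comm, Submodule.Quotient.eq]
    exact hzz
  have h4 : Module.length R (LinearMap.ker φ) ≤ Module.length R (LinearMap.range γ) :=
    Module.length_le_of_injective (Submodule.inclusion h3) (Submodule.inclusion_injective h3)
  have h5 : Module.length R (LinearMap.range γ) ≤ rlen B₁ N₁ :=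
    Module.length_le_of_surjective γ.rangeRestrict γ.surjective_rangeRestrict
  change Module.length R (N ⧸ B.submoduleOf N) ≤ _
  rw [h1]
  exact add_le_add (h4.trans h5) h2

end RLen

/-- A family of complexes `(M, G, d n)` on the same graded module, with a Frobenius
`F : (M, d n) → (M, d (n * p))`. -/
structure Fam (R : Type u) [CommRing R] (p : ℕ) where
  M : Type u
  [acg : AddCommGroup M]
  [mod : Module R M]
  G : ℤ → Submodule R M
  d : ℕ → M →ₗ[R] M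
  F : M →+ M
  d_mem : ∀ (n : ℕ) (i : ℤ) (m : M), m ∈ G i → d n m ∈ G (i + 1)
  d_d : ∀ (n : ℕ) (m : M), d n (d n m) = 0
  F_smul : ∀ (r : R) (m : M), F (r • m) = r ^ p • F m
  F_mem : ∀ (i : ℤ) (m : M), m ∈ G i → F m ∈ G i
  F_d : ∀ (n : ℕ) (m : M), F (d n m) = d (n * p) (F m)

attribute [instance] Fam.acg Fam.mod

namespace Fam

variable {R : Type u} [CommRing R] {p : ℕ}

/-- The Cech complex as a constant family. -/
@[reducible] noncomputable def cech (p : ℕ) [Fact p.Prime] [CharP R p] {s : ℕ} (y : Fin s → R) : Fam R p where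
  M := Cochain y
  G := deg y
  d _ := diff y
  F := (frob p y).toAddMonoidHom
  d_mem _ := diff_mem_deg y
  d_d _ := diff_diff y
  F_smul r m := (frob p y).map_smulₛₗ r m
  F_mem := frob_mem_deg p y
  F_d _ := frob_diff p y

/-- The ring in degree `0`, as a constant family. -/
@[reducible] noncomputable def base (R : Type u) [CommRing R] (p : ℕ) [Fact p.Prime] [CharP R p] :
    Fam R p where
  M := R
  G i := if i = 0 then ⊤ else ⊥
  d _ := 0
  F := (frobenius R p).toAddMonoidHom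
  d_mem _ i m _ := by simp
  d_d _ m := by simp
  F_smul r m := by simp [frobenius_def, mul_pow]
  F_mem i m hm := by
    by_cases h : i = 0
    · simp [h]
    · simp only [h, if_false, Submodule.mem_bot] at hm ⊢
      simp [hm]
  F_d _ m := by simp

/-- The Koszul family `K(x ^ n; D_n)`. -/
@[reducible] def kstep (x : R) (D : Fam R p) : Fam R p where
  M := D.M × D.M
  G i := (D.G i).prod (D.G (i - 1))
  d n := (D.d n ∘ₗ LinearMap.fst R _ _).prod
    (x ^ n • LinearMap.fst R _ _ - D.d n ∘ₗ LinearMap.snd R _ _)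
  F := D.F.prodMap D.F
  d_mem := by
    rintro n i ⟨u, v⟩ ⟨hu, hv⟩
    refine ⟨D.d_mem n i u hu, Submodule.sub_mem _ ?_ ?_⟩
    · have : x ^ n • u ∈ D.G i := Submodule.smul_mem _ _ hu
      simpa using this
    · have := D.d_mem n _ _ hv
      simpa using this
  d_d := by
    rintro n ⟨u, v⟩
    ext
    · simp [D.d_d]
    · simp [D.d_d]
  F_smul := by
    rintro r ⟨u, v⟩
    ext
    · simp [D.F_smul]
    · simp [D.F_smul]
  F_mem := by
    rintro i ⟨u, v⟩ ⟨hu, hv⟩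
    exact ⟨D.F_mem i u hu, D.F_mem _ v hv⟩
  F_d := by
    rintro n ⟨u, v⟩
    ext
    · simp [D.F_d]
    · simp [D.F_d, D.F_smul, pow_mul]

theorem kstep_d (x : R) (D : Fam R p) (n : ℕ) (u v : D.M) :
    (kstep x D).d n (u, v) = (D.d n u, x ^ n • u - D.d n v) := rfl

theorem kstep_F (x : R) (D : Fam R p) (u v : D.M) :
    (kstep x D).F (u, v) = (D.F u, D.F v) := rfl

theorem kstep_F_iter (x : R) (D : Fam R p) (e : ℕ) (u v : D.M) :
    (kstep x D).F^[e] (u, v) = (D.F^[e] u, D.F^[e] v) := by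
  induction e generalizing u v with
  | zero => rfl
  | succ e ih => rw [Function.iterate_succ_apply, Function.iterate_succ_apply,
      Function.iterate_succ_apply, kstep_F, ih]

theorem mem_kstep_G {x : R} {D : Fam R p} {i : ℤ} {u v : D.M} :
    (show (kstep x D).M from (u, v)) ∈ (kstep x D).G i ↔ u ∈ D.G i ∧ v ∈ D.G (i - 1) := Iff.rfl

/-- Cocycles. -/
def Z (D : Fam R p) (n : ℕ) (i : ℤ) : Submodule R D.M := D.G i ⊓ LinearMap.ker (D.d n)

/-- Coboundaries. -/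
def B (D : Fam R p) (n : ℕ) (i : ℤ) : Submodule R D.M := (D.G (i - 1)).map (D.d n)

theorem mem_Z {D : Fam R p} {n : ℕ} {i : ℤ} {m : D.M} :
    m ∈ D.Z n i ↔ m ∈ D.G i ∧ D.d n m = 0 := Iff.rfl

theorem mem_B {D : Fam R p} {n : ℕ} {i : ℤ} {m : D.M} :
    m ∈ D.B n i ↔ ∃ w ∈ D.G (i - 1), D.d n w = m := Iff.rfl

theorem B_le_Z (D : Fam R p) (n : ℕ) (i : ℤ) : D.B n i ≤ D.Z n i := by
  rintro _ ⟨w, hw, rfl⟩
  refine ⟨?_, D.d_d n w⟩
  have := D.d_mem n _ w hw
  simpa using this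

theorem F_iter_smul (D : Fam R p) (e : ℕ) (r : R) (m : D.M) :
    D.F^[e] (r • m) = r ^ p ^ e • D.F^[e] m := by
  induction e generalizing r m with
  | zero => simp
  | succ e ih => rw [Function.iterate_succ_apply, Function.iterate_succ_apply, D.F_smul, ih,
      ← pow_mul, ← pow_succ']

theorem F_iter_d (D : Fam R p) (e n : ℕ) (m : D.M) :
    D.F^[e] (D.d n m) = D.d (n * p ^ e) (D.F^[e] m) := by
  induction e generalizing n m with
  | zero => simp
  | succ e ih => rw [Function.iterate_succ_apply, Function.iterate_succ_apply, D.F_d, ih,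
      pow_succ', mul_assoc]

theorem F_iter_mem (D : Fam R p) (e : ℕ) (i : ℤ) (m : D.M) (hm : m ∈ D.G i) :
    D.F^[e] m ∈ D.G i := by
  induction e generalizing m with
  | zero => simpa
  | succ e ih => exact ih _ (D.F_mem i m hm)

theorem F_iter_mem_Z (D : Fam R p) (e n : ℕ) (i : ℤ) (m : D.M) (hm : m ∈ D.Z n i) :
    D.F^[e] m ∈ D.Z (n * p ^ e) i := by
  refine ⟨D.F_iter_mem e i m hm.1, ?_⟩
  have h : D.d n m = 0 := hm.2
  change D.d (n * p ^ e) (D.F^[e] m) = 0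
  rw [← F_iter_d, h, iterate_map_zero]

theorem F_iter_mem_B (D : Fam R p) (e n : ℕ) (i : ℤ) (m : D.M) (hm : m ∈ D.B n i) :
    D.F^[e] m ∈ D.B (n * p ^ e) i := by
  obtain ⟨w, hw, rfl⟩ := hm
  exact ⟨D.F^[e] w, D.F_iter_mem e _ w hw, (D.F_iter_d e n w).symm⟩

theorem F_iter_mem_B_add (D : Fam R p) (e k n : ℕ) (i : ℤ) (m : D.M)
    (hm : D.F^[e] m ∈ D.B (n * p ^ e) i) : D.F^[e + k] m ∈ D.B (n * p ^ (e + k)) i := by
  have := D.F_iter_mem_B k _ i _ hm
  rwa [← Function.iterate_add_apply, mul_assoc, ← pow_add, add_comm k e] at this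

/-- Cocycles whose class is killed by a power of Frobenius. -/
def N (D : Fam R p) (n : ℕ) (i : ℤ) : Submodule R D.M where
  carrier := {z | z ∈ D.Z n i ∧ ∃ e : ℕ, D.F^[e] z ∈ D.B (n * p ^ e) i}
  zero_mem' := ⟨zero_mem _, 0, by simp⟩
  add_mem' := by
    rintro a b ⟨ha, e, he⟩ ⟨hb, e', he'⟩
    refine ⟨add_mem ha hb, e + e', ?_⟩
    rw [iterate_map_add]
    refine add_mem (D.F_iter_mem_B_add e e' n i a he) ?_
    rw [add_comm e e']
    exact D.F_iter_mem_B_add e' e n i b he'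
  smul_mem' := by
    rintro r a ⟨ha, e, he⟩
    refine ⟨Submodule.smul_mem _ _ ha, e, ?_⟩
    rw [F_iter_smul]
    exact Submodule.smul_mem _ _ he

theorem mem_N {D : Fam R p} {n : ℕ} {i : ℤ} {m : D.M} :
    m ∈ D.N n i ↔ m ∈ D.Z n i ∧ ∃ e : ℕ, D.F^[e] m ∈ D.B (n * p ^ e) i := Iff.rfl

/-- The length of the Frobenius-nilpotent part of the cohomology. -/
noncomputable def len (D : Fam R p) (n : ℕ) (i : ℤ) : ℕ∞ := rlen (D.B n i) (D.N n i)

/-- `r ^ k` kills all cohomology of degree below `I`, uniformly in `n`. -/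
def Killed (D : Fam R p) (I : ℤ) (r : R) (k : ℕ) : Prop :=
  ∀ (n : ℕ) (i : ℤ), i < I → ∀ z ∈ D.Z n i, r ^ k • z ∈ D.B n i

theorem Killed.kstep {D : Fam R p} {I : ℤ} {r : R} {k : ℕ} (h : D.Killed I r k) (x : R) :
    (kstep x D).Killed I r (k + k) := by
  rintro n i hi ⟨u, v⟩ ⟨⟨hu, hv⟩, hd⟩
  have hd' : (D.d n u, x ^ n • u - D.d n v) = (0, 0) := hd
  rw [Prod.mk.injEq, sub_eq_zero] at hd'
  obtain ⟨hdu, hdv⟩ := hd'
  obtain ⟨u', hu', hdu'⟩ := h n i hi u ⟨hu, hdu⟩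
  have hz : r ^ k • v - x ^ n • u' ∈ D.Z n (i - 1) := by
    refine ⟨Submodule.sub_mem _ (Submodule.smul_mem _ _ hv) (Submodule.smul_mem _ _ hu'), ?_⟩
    change D.d n (r ^ k • v - x ^ n • u') = 0
    rw [map_sub, map_smul, map_smul, hdu', ← hdv, smul_comm, sub_self]
  obtain ⟨v', hv', hdv'⟩ := h n (i - 1) (by omega) _ hz
  refine ⟨(r ^ k • u', -v'), ⟨Submodule.smul_mem _ _ hu', Submodule.neg_mem _ hv'⟩, ?_⟩
  change (D.d n (r ^ k • u'), x ^ n • (r ^ k • u') - D.d n (-v')) = (r ^ (k + k) • u, _)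
  rw [map_smul, hdu', map_neg, hdv', Prod.mk.injEq]
  constructor
  · rw [smul_smul, ← pow_add]
  · change _ = r ^ (k + k) • v
    rw [smul_sub, smul_smul, smul_smul, smul_smul, ← pow_add, mul_comm (x ^ n) (r ^ k)]
    abel

theorem len_kstep {D : Fam R p} (hp : 1 < p) {I : ℤ} {x : R} {k : ℕ} (h : D.Killed I x k)
    {n : ℕ} (hn : 0 < n) {i : ℤ} (hi : i ≤ I) :
    (kstep x D).len n i ≤ D.len n (i - 1) + D.len n i := by
  refine rlen_le_add (LinearMap.inr R D.M D.M) (LinearMap.fst R D.M D.M)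
    _ _ _ _ _ _ ?_ ?_ ?_ ?_ ?_
  · rintro z ⟨hz, e, w, hw, he⟩
    refine ⟨⟨⟨zero_mem _, hz.1⟩, ?_⟩, e, ?_⟩
    · change (D.d n 0, x ^ n • (0 : D.M) - D.d n z) = (0, 0)
      have : D.d n z = 0 := hz.2
      simp [this]
    · change (kstep x D).F^[e] (0, z) ∈ _
      rw [kstep_F_iter, iterate_map_zero]
      refine ⟨(0, -w), ⟨zero_mem _, Submodule.neg_mem _ hw⟩, ?_⟩
      rw [kstep_d]
      simp [he]
  · rintro z hz ⟨w, hw, he⟩
    refine ⟨(0, -w), ⟨zero_mem _, Submodule.neg_mem _ hw⟩, ?_⟩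
    rw [kstep_d]
    simp [he]
  · rintro ⟨u, v⟩ ⟨⟨⟨hu, hv⟩, hd⟩, e, ⟨u', v'⟩, ⟨hu', hv'⟩, he⟩
    have hd' : (D.d n u, x ^ n • u - D.d n v) = (0, 0) := hd
    rw [Prod.mk.injEq] at hd'
    rw [kstep_F_iter, kstep_d, Prod.mk.injEq] at he
    exact ⟨⟨hu, hd'.1⟩, e, u', hu', he.1⟩
  · rintro ⟨u, v⟩ hz ⟨⟨u', v'⟩, ⟨hu', hv'⟩, he⟩
    rw [kstep_d, Prod.mk.injEq] at he
    exact ⟨u', hu', he.1⟩
  · rintro ⟨u, v⟩ ⟨⟨⟨hu, hv⟩, hd⟩, e, he⟩ ⟨u', hu', hdu'⟩
    change D.d n u' = u at hdu'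
    have hd' : (D.d n u, x ^ n • u - D.d n v) = (0, 0) := hd
    rw [Prod.mk.injEq, sub_eq_zero] at hd'
    have hv₁ : v - x ^ n • u' ∈ D.G (i - 1) :=
      Submodule.sub_mem _ hv (Submodule.smul_mem _ _ hu')
    have hB : ((u, v) - (0, v - x ^ n • u') : D.M × D.M) ∈ (kstep x D).B n i := by
      refine ⟨(u', 0), ⟨hu', zero_mem _⟩, ?_⟩
      rw [kstep_d, hdu']
      simp
    refine ⟨v - x ^ n • u', ⟨⟨hv₁, ?_⟩, ?_⟩, hB⟩
    · change D.d n (v - x ^ n • u') = 0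
      rw [map_sub, map_smul, hdu', hd'.2, sub_self]
    · -- the Frobenius power of `(0, v - x ^ n • u')` is a boundary
      obtain ⟨f, hf⟩ : ∃ f : ℕ, k ≤ n * p ^ (e + f) := by
        refine ⟨k, ?_⟩
        calc k ≤ p ^ k := (Nat.lt_pow_self hp).le
          _ ≤ p ^ (e + k) := Nat.pow_le_pow_right (by omega) (by omega)
          _ ≤ n * p ^ (e + k) := Nat.le_mul_of_pos_left _ hn
      have h1 : (kstep x D).F^[e + f] (u, v) ∈ (kstep x D).B (n * p ^ (e + f)) i :=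
        F_iter_mem_B_add _ e f n i _ he
      have h2 : (kstep x D).F^[e + f] ((u, v) - (0, v - x ^ n • u') : D.M × D.M) ∈
          (kstep x D).B (n * p ^ (e + f)) i := F_iter_mem_B _ _ _ _ _ hB
      have h3 : (kstep x D).F^[e + f] (0, v - x ^ n • u') ∈
          (kstep x D).B (n * p ^ (e + f)) i := by
        have := sub_mem h1 h2
        rw [← iterate_map_sub] at this
        simpa using this
      rw [kstep_F_iter, iterate_map_zero] at h3
      obtain ⟨⟨s, t⟩, ⟨hs, ht⟩, hst⟩ := h3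
      rw [kstep_d, Prod.mk.injEq] at hst
      obtain ⟨hs0, hst⟩ := hst
      have h4 : x ^ k • s ∈ D.B (n * p ^ (e + f)) (i - 1) :=
        h _ (i - 1) (by omega) s ⟨hs, hs0⟩
      refine ⟨e + f, ?_⟩
      rw [← hst]
      refine Submodule.sub_mem _ ?_ ⟨t, ht, rfl⟩
      rw [show x ^ (n * p ^ (e + f)) • s = x ^ (n * p ^ (e + f) - k) • x ^ k • s by
        rw [smul_smul, ← pow_add, Nat.sub_add_cancel hf]]
      exact Submodule.smul_mem _ _ h4

/-- The Koszul family on a list. -/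
def kos : List R → Fam R p → Fam R p
  | [], D => D
  | x :: xs, D => kstep x (kos xs D)

theorem Killed.kos {D : Fam R p} {I : ℤ} {r : R} {k : ℕ} (h : D.Killed I r k) (xs : List R) :
    ∃ k', (kos xs D).Killed I r k' := by
  induction xs with
  | nil => exact ⟨k, h⟩
  | cons x xs ih =>
    obtain ⟨k', hk'⟩ := ih
    exact ⟨k' + k', hk'.kstep x⟩

theorem len_kos {D : Fam R p} (hp : 1 < p) {I : ℤ} (xs : List R)
    (h : ∀ x ∈ xs, ∃ k, D.Killed I x k) {n : ℕ} (hn : 0 < n) {i : ℤ} (hi : i ≤ I) :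
    (kos xs D).len n i ≤
      ∑ l ∈ Finset.range (xs.length + 1), (xs.length.choose l : ℕ∞) * D.len n (i - l) := by
  induction xs generalizing i with
  | nil => simp [kos]
  | cons x xs ih =>
    have ih' := @ih (fun y hy => h y (List.mem_cons_of_mem _ hy))
    obtain ⟨k, hk⟩ := h x List.mem_cons_self
    obtain ⟨k', hk'⟩ := hk.kos xs
    have h1 := len_kstep hp hk' hn hi
    refine h1.trans ((add_le_add (ih' (by omega)) (ih' hi)).trans (le_of_eq ?_))
    rw [List.length_cons]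
    set m := xs.length with hm
    rw [Finset.sum_range_succ' _ (m + 1)]
    have e1 : ∀ l ∈ Finset.range (m + 1), (((m + 1).choose (l + 1) : ℕ) : ℕ∞) *
        D.len n (i - ((l + 1 : ℕ) : ℤ)) = (m.choose l : ℕ∞) * D.len n (i - 1 - l) +
          (m.choose (l + 1) : ℕ∞) * D.len n (i - ((l + 1 : ℕ) : ℤ)) := by
      intro l _
      rw [Nat.choose_succ_succ, Nat.cast_add, add_mul]
      congr 3
      push_cast
      ring
    rw [Finset.sum_congr rfl e1, Finset.sum_add_distrib, add_assoc]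
    congr 1
    rw [Finset.sum_range_succ' _ m, Finset.sum_range_succ _ m]
    simp

end Fam

end Pool.Agent.MP_a7bda3_al
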